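import Mathlib
import Pool.Agent.MP_8cd4dc_co.Example

set_option autoImplicit false

namespace Pool.Agent.Results.MP_8cd4dc_co.TreeRatio

open Finset Pool.Agent.MP_8cd4dc_co

section Definitions

variable {V : Type} [Fintype V] [DecidableEq V] (G : SimpleGraph V)

/-- A broadcast: `f v ≤ diam G` and `f v ≤ e(v)` for every vertex `v`. -/
def IsBroadcast (f : V → ℕ) : Prop := ∀ v, f v ≤ G.diam ∧ (f v : ℕ∞) ≤ G.eccent v

/-- `u` hears `f` from some vertex. -/
def Hears (f : V → ℕ) (u : V) : Prop := ∃ v, 0 < f v ∧ G.dist u v ≤ f v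

/-- Every vertex hears `f`. -/
def IsDominating (f : V → ℕ) : Prop := ∀ u, Hears G f u

/-- The private boundary of `v`: the vertices within distance `f v` of `v` that hear nothing once
`f v` is lowered by one. -/
def PrivBdry (f : V → ℕ) (v : V) : Set V :=
  {u | G.dist u v ≤ f v ∧ ¬ Hears G (Function.update f v (f v - 1)) u}

/-- Every broadcasting vertex has a nonempty private boundary. -/
def IsIrredundant (f : V → ℕ) : Prop := ∀ v, 0 < f v → (PrivBdry G f v).Nonempty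

/-- An irredundant broadcast such that no broadcast `g > f` is irredundant. -/
def IsMaxIrredundant (f : V → ℕ) : Prop :=
  IsBroadcast G f ∧ IsIrredundant G f ∧
    ¬ ∃ g : V → ℕ, IsBroadcast G g ∧ (∀ x, f x ≤ g x) ∧ (∃ x, f x < g x) ∧ IsIrredundant G g

/-- The broadcast number: the least cost of a dominating broadcast. -/
noncomputable def gammaB : ℕ :=
  sInf {c | ∃ f : V → ℕ, IsBroadcast G f ∧ IsDominating G f ∧ ∑ v, f v = c}

/-- The broadcast irredundance number: the least cost of a maximal irredundant broadcast. -/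
noncomputable def irB : ℕ := sInf {c | ∃ f : V → ℕ, IsMaxIrredundant G f ∧ ∑ v, f v = c}

end Definitions

section Proofs

variable {V : Type} [Fintype V] [DecidableEq V] {G : SimpleGraph V}

omit [Fintype V] in
lemma mem_pb {f : V → ℕ} {v : V} (hv : 0 < f v) (y : V) :
    y ∈ PrivBdry G f v ↔ PB G.dist f v y := by
  unfold PrivBdry PB Hears
  simp only [Set.mem_ofPred_eq, not_exists, not_and, not_le]
  rw [SimpleGraph.dist_comm (u := y)]
  refine and_congr_right fun h => ⟨fun a => ⟨fun w w1 w2 => ?_, ?_⟩, fun a w w1 => ?_⟩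
  · have := a w
    rw [Function.update_of_ne w1, SimpleGraph.dist_comm] at this
    exact this w2
  · have := a v
    rw [Function.update_self, SimpleGraph.dist_comm] at this
    omega
  · by_cases e0 : w = v
    · subst e0
      rw [Function.update_self] at w1 ⊢
      rw [SimpleGraph.dist_comm]
      omega
    · rw [Function.update_of_ne e0] at w1 ⊢
      rw [SimpleGraph.dist_comm]
      exact a.1 w e0 w1

omit [Fintype V] in
lemma irr_iff {f : V → ℕ} : IsIrredundant G f ↔ ∀ w, 0 < f w → ∃ y, PB G.dist f w y :=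
  forall₂_congr fun _ hw => exists_congr fun y => mem_pb hw y

omit [DecidableEq V] in
lemma le_of_le_dist (hc : G.Connected) {k : ℕ} {x u : V} (h : k ≤ G.dist x u) :
    k ≤ G.diam ∧ (k : ℕ∞) ≤ G.eccent x := by
  have := hc.nonempty
  refine ⟨h.trans (SimpleGraph.dist_le_diam
    (SimpleGraph.connected_iff_ediam_ne_top.1 hc)), ?_⟩
  refine le_trans ?_ (SimpleGraph.edist_le_eccent (v := u))
  rw [← (hc x u).coe_dist_eq_edist]
  exact_mod_cast h

lemma exists_cover [Nontrivial V] (hG : G.IsTree) : ∃ (g : V → ℕ) (M : Finset V),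
    IsBroadcast G g ∧ IsDominating G g ∧ ∑ v, g v ≤ M.card ∧
      ∀ Q ⊆ M, ∀ k, 1 ≤ k → (∀ a ∈ Q, ∀ b ∈ Q, G.dist a b ≤ 2 * k) → Q.card ≤ k := by
  have T := isTM_of_tree hG
  obtain ⟨Y, M, y1, y2, y3, y4⟩ := exists_cover_pack T
  have hfar : ∀ c, ∃ u, ∀ u', G.dist c u' ≤ G.dist c u := fun c => by
    obtain ⟨u, -, hu⟩ := exists_max_image univ (G.dist c) univ_nonempty
    exact ⟨u, fun u' => hu u' (mem_univ _)⟩
  choose far hfar using hfar
  let s : V → ℕ := fun c => ∑ B ∈ Y.filter (fun B => B.1 = c), B.2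
  refine ⟨fun c => min (s c) (G.dist c (far c)), M,
    fun c => le_of_le_dist hG.connected (min_le_right _ _), fun q => ?_, ?_, y3⟩
  · obtain ⟨B, b1, b2⟩ := y2 q
    have h1 : B.2 ≤ s B.1 := single_le_sum (f := fun B : V × ℕ => B.2) (fun _ _ => Nat.zero_le _)
      (mem_filter.2 ⟨b1, rfl⟩)
    have h2 := y1 B b1
    obtain ⟨u, hu⟩ := exists_ne B.1
    have h3 : G.dist B.1 u ≠ 0 := fun e0 => hu (T.eq_of _ _ e0).symm
    have h4 := hfar B.1 u
    have h5 := hfar B.1 q
    refine ⟨B.1, ?_, ?_⟩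
    · simp only; omega
    · rw [SimpleGraph.dist_comm]; simp only; omega
  · refine le_trans (sum_le_sum fun c _ => min_le_left _ _) (le_trans (le_of_eq ?_) y4)
    exact sum_fiberwise_of_maps_to (fun _ _ => mem_univ _) _

lemma upper [Nontrivial V] (hG : G.IsTree) {f : V → ℕ} (hf : IsMaxIrredundant G f) :
    14 * gammaB G ≤ 15 * ∑ v, f v := by
  obtain ⟨g, M, g1, g2, g3, g4⟩ := exists_cover hG
  have h1 : gammaB G ≤ ∑ v, g v := Nat.sInf_le ⟨g, g1, g2, rfl⟩
  have h2 := pack_le (isTM_of_tree hG) (irr_iff.1 hf.2.1) (fun g' a b c => by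
    by_contra hn
    push Not at hn
    refine hf.2.2 ⟨g', fun x => ?_, a, b, irr_iff.2 hn⟩
    rcases Nat.eq_or_lt_of_le (a x) with e0 | e0
    · exact e0 ▸ hf.1 x
    · obtain ⟨u, hu⟩ := c x e0
      exact le_of_le_dist hG.connected hu) g4
  omega

lemma exists_max : ∃ f, IsMaxIrredundant G f := by
  classical
  let S := (Fintype.piFinset fun _ : V => range (G.diam + 1)).filter
    fun f => IsBroadcast G f ∧ IsIrredundant G f
  have mem : ∀ f, IsBroadcast G f → IsIrredundant G f → f ∈ S := fun f a b =>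
    mem_filter.2 ⟨Fintype.mem_piFinset.2 fun v => mem_range.2 (Nat.lt_succ_of_le (a v).1), a, b⟩
  obtain ⟨f, f1, f2⟩ := exists_max_image S (fun f => ∑ v, f v)
    ⟨fun _ => 0, mem _ (fun _ => by simp) fun _ h => absurd h (lt_irrefl 0)⟩
  obtain ⟨-, a, b⟩ := mem_filter.1 f1
  refine ⟨f, a, b, ?_⟩
  rintro ⟨g, g1, g2, ⟨x, g3⟩, g4⟩
  exact absurd (f2 g (mem g g1 g4))
    (not_le.2 (sum_lt_sum (fun v _ => g2 v) ⟨x, mem_univ x, g3⟩))

lemma attained [Nontrivial V] (hG : G.IsTree) :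
    (∃ f, IsBroadcast G f ∧ IsDominating G f ∧ ∑ v, f v = gammaB G) ∧
      (∃ f, IsMaxIrredundant G f ∧ ∑ v, f v = irB G) ∧ 0 < irB G ∧ 14 * gammaB G ≤ 15 * irB G := by
  obtain ⟨g, -, g1, g2, -⟩ := exists_cover hG
  obtain ⟨f, hf⟩ := exists_max (G := G)
  have h1 : gammaB G ∈ {c | ∃ f : V → ℕ, IsBroadcast G f ∧ IsDominating G f ∧ ∑ v, f v = c} :=
    Nat.sInf_mem ⟨_, g, g1, g2, rfl⟩
  have h2 : irB G ∈ {c | ∃ f : V → ℕ, IsMaxIrredundant G f ∧ ∑ v, f v = c} :=
    Nat.sInf_mem ⟨_, f, hf, rfl⟩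
  obtain ⟨f', a, b⟩ := id h2
  have h3 := upper hG a
  rw [b] at h3
  refine ⟨h1, h2, ?_, h3⟩
  obtain ⟨g', -, c2, c3⟩ := h1
  obtain ⟨v, v1, -⟩ := c2 (Classical.arbitrary V)
  have : g' v ≤ ∑ v, g' v := single_le_sum (fun _ _ => Nat.zero_le _) (mem_univ v)
  omega

lemma ex_gamma : 15 ≤ gammaB exG := by
  obtain ⟨⟨g, -, g2, g3⟩, -⟩ := attained exG_tree
  rw [← g3, ← exM_card]
  have : exM ⊆ univ.biUnion fun c => if 0 < g c then exM.filter fun q => exD q c ≤ g c else ∅ := by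
    intro q hq
    obtain ⟨c, c1, c2⟩ := g2 q
    rw [exG_dist] at c2
    exact mem_biUnion.2 ⟨c, mem_univ c, by rw [if_pos c1]; exact mem_filter.2 ⟨hq, c2⟩⟩
  refine (card_le_card this).trans (card_biUnion_le.trans (sum_le_sum fun c _ => ?_))
  split_ifs with h
  · exact exM_pack c _ h
  · simp

lemma ex_ir : irB exG ≤ 14 := by
  refine Nat.sInf_le ⟨exF, ⟨fun v => ?_, irr_iff.2 (exG_dist ▸ exF_irr), ?_⟩, exF_sum⟩
  · obtain ⟨u, hu⟩ := exF_ecc v
    exact le_of_le_dist exG_tree.connected (exG_dist ▸ hu)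
  · rintro ⟨g, -, g2, ⟨x, g3⟩, g4⟩
    exact exF_max g2 (exG_dist ▸ irr_iff.1 g4) x g3

end Proofs

/-- Over all trees with at least two vertices the ratio of the broadcast number to the broadcast
irredundance number has maximum `15 / 14`; both minima are attained and the denominator is
positive. -/
theorem result :
    IsGreatest {r : ℚ | ∃ (n : ℕ) (T : SimpleGraph (Fin n)), 2 ≤ n ∧ T.IsTree ∧
      r = (gammaB T : ℚ) / (irB T : ℚ)} (15 / 14) ∧
    ∀ (n : ℕ) (T : SimpleGraph (Fin n)), 2 ≤ n → T.IsTree →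
      (∃ f, IsBroadcast T f ∧ IsDominating T f ∧ ∑ v, f v = gammaB T) ∧
      (∃ f, IsMaxIrredundant T f ∧ ∑ v, f v = irB T) ∧ 0 < irB T := by
  refine ⟨⟨⟨43, exG, by norm_num, exG_tree, ?_⟩, ?_⟩, fun n T hn hT => ?_⟩
  · obtain ⟨-, -, h1, h2⟩ := attained exG_tree
    have h3 := ex_gamma
    have h4 := ex_ir
    rw [show gammaB exG = 15 by omega, show irB exG = 14 by omega]
    norm_num
  · rintro r ⟨n, T, hn, hT, rfl⟩
    have : Nontrivial (Fin n) := Fin.nontrivial_iff_two_le.2 hn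
    obtain ⟨-, -, h1, h2⟩ := attained hT
    rw [div_le_div_iff₀ (by exact_mod_cast h1) (by norm_num)]
    have : gammaB T * 14 ≤ 15 * irB T := by omega
    exact_mod_cast this
  · have : Nontrivial (Fin n) := Fin.nontrivial_iff_two_le.2 hn
    obtain ⟨h1, h2, h3, -⟩ := attained hT
    exact ⟨h1, h2, h3⟩

end Pool.Agent.Results.MP_8cd4dc_co.TreeRatio
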